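import Mathlib
import Pool.Agent.V1122.Amalg.VirtAb

/-!
# Virtually abelian images of amalgams over virtually cyclic subgroups
-/

namespace Pool.Agent.Results.MP_f748d5_al.VirtAbelianImage

open Function Pool.Agent.V1122.Amalg

universe u

/-- the subgroup `L` and compatible data: common part of the two cases -/
theorem main {G₀ : Type u} {G : Bool → Type u} [Group G₀] [∀ i, Group (G i)]
    (φ : ∀ i, G₀ →* G i) (hφ : ∀ i, Injective (φ i)) (h₀ : VirtCyclic G₀)
    (hfg : ∀ i, Group.FG (G i)) (hva : ∀ i, VirtAbelian (G i)) :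
    ∃ (E : Type u) (_ : Group E) (_ : Group.FG E) (_ : VirtAbelian E)
      (ν : Monoid.PushoutI φ →* E),
      Injective (ν.comp (Monoid.PushoutI.of false)) ∧
      Injective (ν.comp (Monoid.PushoutI.of true)) ∧
      VirtCyclic ↥((ν.comp (Monoid.PushoutI.of false)).range ⊓
        (ν.comp (Monoid.PushoutI.of true)).range) := by
  choose N j e hNn hNf he using fun i => exists_free_abelian (G i) (hva i)
  have hfgf := hfg false
  have hfgt := hfg true
  by_cases hfin : Finite G₀
  · -- finite amalgamated subgroup
    have hL : ∀ i, ∀ x : G₀, x ∈ (⊥ : Subgroup G₀) ↔ φ i x ∈ N i := by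
      intro i x
      rw [Subgroup.mem_bot]
      constructor
      · rintro rfl; rw [map_one]; exact one_mem _
      · intro hx
        have h1 : x ^ (Nat.card G₀) = 1 := pow_card_eq_one'
        have h2 : (⟨φ i x, hx⟩ : N i) ^ (Nat.card G₀) = 1 := by
          apply Subtype.ext
          rw [Subgroup.coe_pow, ← map_pow, h1, map_one]; rfl
        have h3 : (e i ⟨φ i x, hx⟩) ^ ((Nat.card G₀ : ℕ) : ℤ) = 1 := by
          rw [zpow_natCast, ← map_pow, h2, map_one]
        have h4 := pow_eq_one_free (by exact_mod_cast Nat.card_pos.ne') h3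
        have h5 := he i (h4.trans (map_one _).symm)
        have h6 : φ i x = 1 := congrArg Subtype.val h5
        exact hφ i (h6.trans (map_one _).symm)
    refine concl φ N ⊥ hL (V := (j false → Multiplicative ℤ) × (j true → Multiplicative ℤ))
      (fun _ => (MonoidHom.inl _ _).comp (e false)) (fun _ => (MonoidHom.inr _ _).comp (e true))
      ?_ ?_ ?_ (Quotient.mk _ 1) (Quotient.mk _ 1) 1 ?_
    · intro a b x
      have hx : x = 1 := Subsingleton.elim _ _
      have h1 : conj (φ false) (N false) ⊥ (hL false) a x = 1 :=
        hx ▸ (conjHom (φ false) (N false) ⊥ (hL false) a).map_one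
      have h2 : conj (φ true) (N true) ⊥ (hL true) b x = 1 :=
        hx ▸ (conjHom (φ true) (N true) ⊥ (hL true) b).map_one
      rw [h1, h2, map_one, map_one]
    · intro _ x y h
      exact he false (congrArg Prod.fst h)
    · intro _ x y h
      exact he true (congrArg Prod.snd h)
    · intro x y h _
      have h1 : e false x = 1 := congrArg Prod.fst h
      exact he false (h1.trans (map_one _).symm)
  · -- infinite amalgamated subgroup
    have hinf : Infinite G₀ := not_finite_iff_infinite.mp hfin
    let M : Bool → Subgroup G₀ := fun i => (N i).comap (φ i)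
    have hMf : ∀ i, (M i).FiniteIndex := fun i => comap_finiteIndex (φ i) (N i)
    have hMe : ∀ i, ∃ f : M i →* (j i → Multiplicative ℤ), Injective f := by
      intro i
      let r : M i →* N i :=
        { toFun := fun x => ⟨φ i x, x.2⟩
          map_one' := by apply Subtype.ext; simp
          map_mul' := by intro x y; apply Subtype.ext; simp }
      refine ⟨(e i).comp r, (he i).comp ?_⟩
      intro x y h
      apply Subtype.ext
      exact hφ i (congrArg Subtype.val h)
    have hMc : ∀ i, IsCyclic (M i) := fun i => by
      obtain ⟨f, hf⟩ := hMe i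
      exact cyclic_of_free h₀ (M i) f hf
    -- generators
    have hgen : ∀ i, ∃ z : G₀, z ∈ M i ∧ ∀ x ∈ M i, ∃ n : ℤ, x = z ^ n := by
      intro i
      obtain ⟨z, hz⟩ := (hMc i).exists_generator
      refine ⟨z, z.2, fun x hx => ?_⟩
      obtain ⟨n, hn⟩ := Subgroup.mem_zpowers_iff.mp (hz ⟨x, hx⟩)
      exact ⟨n, by rw [← Subgroup.coe_zpow, hn]⟩
    choose z hzM hz using hgen
    let L : Subgroup G₀ := M false ⊓ M true
    have hLf : L.FiniteIndex := by
      have := hMf false
      have := hMf true
      exact inferInstance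
    obtain ⟨l, hlL, hl⟩ : ∃ l : G₀, l ∈ L ∧ ∀ x ∈ L, ∃ n : ℤ, x = l ^ n := by
      have hc : IsCyclic L := by
        have := hMc false
        exact isCyclic_of_injective (Subgroup.inclusion (inf_le_left : L ≤ M false))
          (Subgroup.inclusion_injective _)
      obtain ⟨z, hz⟩ := hc.exists_generator
      refine ⟨z, z.2, fun x hx => ?_⟩
      obtain ⟨n, hn⟩ := Subgroup.mem_zpowers_iff.mp (hz ⟨x, hx⟩)
      exact ⟨n, by rw [← Subgroup.coe_zpow, hn]⟩
    have hl1 : l ≠ 1 := by
      rintro rfl
      have hbot : L = ⊥ := by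
        rw [eq_bot_iff]
        intro x hx
        obtain ⟨n, hn⟩ := hl x hx
        rw [Subgroup.mem_bot, hn, one_zpow]
      rw [hbot, Subgroup.finiteIndex_iff, Subgroup.index_bot] at hLf
      exact hLf (Nat.card_eq_zero_of_infinite)
    have hLM : ∀ i, L ≤ M i := fun i => match i with
      | false => inf_le_left
      | true => inf_le_right
    choose s hs using fun i => hz i l (hLM i hlL)
    have hs0 : ∀ i, s i ≠ 0 := by
      intro i h
      apply hl1
      rw [hs i, h, zpow_zero]
    -- the exact subgroups
    have hK : ∀ i, ∃ K : Subgroup (G i), K.Normal ∧ K.FiniteIndex ∧ K ≤ N i ∧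
        ∀ n : ℤ, ((φ i (z i)) ^ n ∈ K ↔ s i ∣ n) := by
      intro i
      have := hNn i
      have := hNf i
      have hz1 : e i ⟨φ i (z i), hzM i⟩ ≠ 1 := by
        intro h
        have h5 := he i (h.trans (map_one _).symm)
        have h6 : φ i (z i) = 1 := congrArg Subtype.val h5
        have h7 : z i = 1 := hφ i (h6.trans (map_one _).symm)
        apply hl1
        rw [hs i, h7, one_zpow]
      obtain ⟨a, ha⟩ := Function.ne_iff.mp hz1
      exact exists_exact (N i) ((Pi.evalMonoidHom (fun _ : j i => Multiplicative ℤ) a).comp (e i))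
        ⟨φ i (z i), hzM i⟩ ha (s i) (hs0 i)
    choose K hKn hKf hKN hKz using hK
    have hL : ∀ i, ∀ x : G₀, x ∈ L ↔ φ i x ∈ K i := by
      intro i x
      constructor
      · intro hx
        obtain ⟨n, rfl⟩ := hl x hx
        rw [hs i, ← zpow_mul, map_zpow]
        exact (hKz i _).mpr ⟨n, rfl⟩
      · intro hx
        have hxM : x ∈ M i := hKN i hx
        obtain ⟨n, rfl⟩ := hz i x hxM
        rw [map_zpow, hKz i] at hx
        obtain ⟨t, rfl⟩ := hx
        rw [zpow_mul, ← hs i]
        exact zpow_mem hlL t
    let ε : ∀ i, K i →* (j i → Multiplicative ℤ) := fun i =>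
      (e i).comp (Subgroup.inclusion (hKN i))
    have hε : ∀ i, Injective (ε i) := fun i =>
      (he i).comp (Subgroup.inclusion_injective _)
    let ℓ : L := ⟨l, hlL⟩
    have hℓ1 : ℓ ≠ 1 := fun h => hl1 (congrArg Subtype.val h)
    let p : J (φ false) (K false) → (j false → Multiplicative ℤ) := fun a =>
      ε false (conj (φ false) (K false) L (hL false) a ℓ)
    let q : J (φ true) (K true) → (j true → Multiplicative ℤ) := fun b =>
      ε true (conj (φ true) (K true) L (hL true) b ℓ)
    have hp : ∀ a, p a ≠ 1 := fun a h => conj_ne_one (φ false) (hφ false) (K false) L (hL false)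
      a hℓ1 (hε false (h.trans (map_one _).symm))
    have hq : ∀ a, q a ≠ 1 := fun a h => conj_ne_one (φ true) (hφ true) (K true) L (hL true)
      a hℓ1 (hε true (h.trans (map_one _).symm))
    let α : J (φ true) (K true) → (K false →* (j false × j true → Multiplicative ℤ)) := fun b =>
      { toFun := fun x ab => (ε false x ab.1) ^ (Multiplicative.toAdd (q b ab.2))
        map_one' := by funext ab; rw [map_one]; exact one_zpow _
        map_mul' := by intro x y; funext ab; rw [map_mul]; exact mul_zpow _ _ _ }
    let β : J (φ false) (K false) → (K true →* (j false × j true → Multiplicative ℤ)) := fun a =>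
      { toFun := fun y ab => (ε true y ab.2) ^ (Multiplicative.toAdd (p a ab.1))
        map_one' := by funext ab; rw [map_one]; exact one_zpow _
        map_mul' := by intro x y; funext ab; rw [map_mul]; exact mul_zpow _ _ _ }
    have hsymm : ∀ x y : Multiplicative ℤ, x ^ (Multiplicative.toAdd y) =
        y ^ (Multiplicative.toAdd x) := by
      intro x y
      apply Multiplicative.toAdd.injective
      rw [toAdd_zpow, toAdd_zpow, smul_eq_mul, smul_eq_mul, mul_comm]
    have hz0 : ∀ (x : Multiplicative ℤ) (n : ℤ), n ≠ 0 → x ^ n = 1 → x = 1 := by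
      intro x n hn h
      have h3 := congrArg Multiplicative.toAdd h
      rw [toAdd_zpow, toAdd_one, smul_eq_mul] at h3
      rcases mul_eq_zero.mp h3 with h4 | h4
      · exact absurd h4 hn
      · exact toAdd_eq_zero.mp h4
    have hα : ∀ b, Injective (α b) := by
      intro b
      rw [injective_iff_map_eq_one]
      intro x hx
      obtain ⟨b', hb'⟩ := Function.ne_iff.mp (hq b)
      apply hε false
      rw [map_one]
      funext a
      exact hz0 _ (Multiplicative.toAdd (q b b')) (fun h => hb' (toAdd_eq_zero.mp h))
        (congrFun hx (a, b'))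
    have hβ : ∀ a, Injective (β a) := by
      intro a
      rw [injective_iff_map_eq_one]
      intro x hx
      obtain ⟨a', ha'⟩ := Function.ne_iff.mp (hp a)
      apply hε true
      rw [map_one]
      funext b
      exact hz0 _ (Multiplicative.toAdd (p a a')) (fun h => ha' (toAdd_eq_zero.mp h))
        (congrFun hx (a', b))
    let j₀ : J (φ false) (K false) := Quotient.mk _ 1
    let k₀ : J (φ true) (K true) := Quotient.mk _ 1
    obtain ⟨a₀, ha₀⟩ := Function.ne_iff.mp (hp j₀)
    obtain ⟨b₀, hb₀⟩ := Function.ne_iff.mp (hq k₀)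
    have hfinL : Finite (G₀ ⧸ L) := inferInstance
    refine concl φ K L hL α β ?_ hα hβ j₀ k₀
      (Pi.evalMonoidHom (fun _ : j false × j true => Multiplicative ℤ) (a₀, b₀)) ?_
    · intro a b x
      obtain ⟨n, hn⟩ := hl x x.2
      have hx : x = ℓ ^ n := Subtype.ext (by rw [Subgroup.coe_zpow]; exact hn)
      rw [hx, Pool.Agent.V1122.Amalg.conj_zpow, Pool.Agent.V1122.Amalg.conj_zpow, map_zpow, map_zpow]
      congr 1
      funext ab
      exact hsymm (p a ab.1) (q b ab.2)
    · intro x y h h1
      have h2 : (β j₀ y) (a₀, b₀) = 1 := by rw [← h]; exact h1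
      have h3 : ε true y b₀ = 1 := hz0 _ _ (fun h => ha₀ (toAdd_eq_zero.mp h)) h2
      apply hε false
      rw [map_one]
      funext a
      have h4 : (β j₀ y) (a, b₀) = 1 := by
        change (ε true y b₀) ^ (Multiplicative.toAdd (p j₀ a)) = 1
        rw [h3, one_zpow]
      rw [← h] at h4
      exact hz0 _ _ (fun h => hb₀ (toAdd_eq_zero.mp h)) h4

/-- **Virtually abelian images.**  Let `G_false`, `G_true` be finitely generated virtually abelian
groups with a common virtually cyclic subgroup `G₀` and let `G` be their amalgam.  Then there are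
a finitely generated virtually abelian group `E` and a homomorphism `ν : G → E` injective on both
factors such that the intersection of the images of the factors is virtually cyclic. -/
theorem result {G₀ : Type u} {G : Bool → Type u} [Group G₀] [∀ i, Group (G i)]
    (φ : ∀ i, G₀ →* G i) (hφ : ∀ i, Injective (φ i)) (h₀ : VirtCyclic G₀)
    (hfg : ∀ i, Group.FG (G i)) (hva : ∀ i, VirtAbelian (G i)) :
    ∃ (E : Type u) (_ : Group E) (ν : Monoid.PushoutI φ →* E),
      Group.FG E ∧ VirtAbelian E ∧
      (∀ i, Injective (ν.comp (Monoid.PushoutI.of i))) ∧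
      VirtCyclic ↥((ν.comp (Monoid.PushoutI.of false)).range ⊓
        (ν.comp (Monoid.PushoutI.of true)).range) := by
  obtain ⟨E, hE, h1, h2, ν, h3, h4, h5⟩ := main φ hφ h₀ hfg hva
  exact ⟨E, hE, ν, h1, h2, fun i => match i with
    | false => h3
    | true => h4, h5⟩

end Pool.Agent.Results.MP_f748d5_al.VirtAbelianImage
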